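import Mathlib

namespace Pool.Agent.Results.MP_16410b_al.NotMatched

open TensorProduct LinearMap

section Defs

variable {k : Type} [Field k]

/-- convolution product of linear maps from a coalgebra to an algebra -/
noncomputable def conv {C B : Type} [AddCommGroup C] [Module k C] [Coalgebra k C] [Ring B]
    [Algebra k B] (f g : C →ₗ[k] B) : C →ₗ[k] B :=
  mul' k B ∘ₗ map f g ∘ₗ Coalgebra.comul

variable {H A : Type} [Ring H] [HopfAlgebra k H] [Ring A] [HopfAlgebra k A]

/-- normalized Sweedler cocycle `σ` with convolution inverse `τ` -/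
def IsCocycle (σ τ : H ⊗[k] H →ₗ[k] k) : Prop :=
  conv σ τ = Coalgebra.counit ∧ conv τ σ = Coalgebra.counit ∧
    σ ∘ₗ rTensor H (conv (Algebra.linearMap k H ∘ₗ σ) (mul' k H)) =
      σ ∘ₗ lTensor H (conv (Algebra.linearMap k H ∘ₗ σ) (mul' k H)) ∘ₗ
        (TensorProduct.assoc k H H H).toLinearMap ∧
    ∀ h, σ (h ⊗ₜ 1) = Coalgebra.counit h ∧ σ (1 ⊗ₜ h) = Coalgebra.counit h

/-- multiplication of the Doi deformation -/
noncomputable def doi (σ τ : H ⊗[k] H →ₗ[k] k) : H ⊗[k] H →ₗ[k] H :=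
  conv (conv (Algebra.linearMap k H ∘ₗ σ) (mul' k H)) (Algebra.linearMap k H ∘ₗ τ)

/-- multiplication of the `r`-deformation -/
noncomputable def rmul (act : H ⊗[k] A →ₗ[k] H) (r : H →ₗ[k] A) : H ⊗[k] H →ₗ[k] H :=
  mul' k H ∘ₗ rTensor H (act ∘ₗ lTensor H r) ∘ₗ (TensorProduct.assoc k H H H).symm.toLinearMap ∘ₗ
    lTensor H Coalgebra.comul

/-- cocentral map -/
def Cocentral (r : H →ₗ[k] A) : Prop :=
  rTensor H r ∘ₗ Coalgebra.comul =
    rTensor H r ∘ₗ (TensorProduct.comm k H H).toLinearMap ∘ₗ Coalgebra.comul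

/-- `H` has a cocycle whose Doi deformation is not commutative and is no `r`-deformation -/
def Bad (k H : Type) [Field k] [Ring H] [HopfAlgebra k H] : Prop :=
  ∃ σ τ : H ⊗[k] H →ₗ[k] k, IsCocycle σ τ ∧
    (∃ a b, doi σ τ (a ⊗ₜ b) ≠ doi σ τ (b ⊗ₜ a)) ∧
    ∀ (A : Type) [Ring A] [HopfAlgebra k A] (act : H ⊗[k] A →ₗ[k] H) (r : H →ₗ[k] A),
      (∀ h, act (h ⊗ₜ 1) = h) → r 1 = 1 → Cocentral r →
      (∀ a b, rmul act r (a ⊗ₜ b) = rmul act r (b ⊗ₜ a)) ∧ rmul act r ≠ doi σ τ

end Defs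

abbrev M := Multiplicative (ℤ × ℤ × ℕ × ℕ)

def HH (k : Type) [Field k] : Type := MonoidAlgebra k M

variable {k : Type} [Field k]

noncomputable instance : CommRing (HH k) := inferInstanceAs (CommRing (MonoidAlgebra k M))

noncomputable instance : Algebra k (HH k) := inferInstanceAs (Algebra k (MonoidAlgebra k M))

noncomputable def e : M →* HH k := MonoidAlgebra.of k M

noncomputable def bas : Module.Basis M k (HH k) := MonoidAlgebra.basis M k

theorem bas_eq (m : M) : (bas m : HH k) = e m := MonoidAlgebra.basis_apply ..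

noncomputable def lf {B : Type} [Semiring B] [Algebra k B] (φ : M →* B) : HH k →ₐ[k] B :=
  MonoidAlgebra.lift k B M φ

@[simp] theorem lf_e {B : Type} [Semiring B] [Algebra k B] (φ : M →* B) (m : M) :
    lf φ (e m : HH k) = φ m := MonoidAlgebra.lift_of ..

def p (a b : ℤ) (i j : ℕ) : M := Multiplicative.ofAdd (a, b, i, j)

theorem p_mul (a b a' b' : ℤ) (i j i' j' : ℕ) :
    p a b i j * p a' b' i' j' = p (a + a') (b + b') (i + i') (j + j') := rfl

theorem p_one : p 0 0 0 0 = 1 := rfl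

def G0 : Mˣ := ⟨p 1 0 0 0, p (-1) 0 0 0, rfl, rfl⟩

def K0 : Mˣ := ⟨p 0 1 0 0, p 0 (-1) 0 0, rfl, rfl⟩

def ph {B : Type} [CommMonoid B] (u v : Bˣ) (x y : B) : M →* B where
  toFun m := ↑(u ^ m.toAdd.1 * v ^ m.toAdd.2.1) * x ^ m.toAdd.2.2.1 * y ^ m.toAdd.2.2.2
  map_one' := by simp
  map_mul' m n := by
    simp only [toAdd_mul, Prod.fst_add, Prod.snd_add, zpow_add, pow_add, Units.val_mul]
    ac_rfl

theorem ph_p {B : Type} [CommMonoid B] (u v : Bˣ) (x y : B) (a b : ℤ) (i j : ℕ) :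
    ph u v x y (p a b i j) = ↑(u ^ a * v ^ b) * x ^ i * y ^ j := rfl

theorem ph_id (m : M) : ph G0 K0 (p 0 0 1 0) (p 0 0 0 1) m = m := by
  have h1 : ∀ a : ℤ, ((G0 ^ a : Mˣ) : M) = p a 0 0 0 := by
    intro a
    induction a using Int.induction_on with
    | zero => rfl
    | succ n ih => rw [zpow_add_one, Units.val_mul, ih]; rfl
    | pred n ih => rw [zpow_sub_one, Units.val_mul, ih]; rfl
  have h2 : ∀ a : ℤ, ((K0 ^ a : Mˣ) : M) = p 0 a 0 0 := by
    intro a
    induction a using Int.induction_on with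
    | zero => rfl
    | succ n ih => rw [zpow_add_one, Units.val_mul, ih]; rfl
    | pred n ih => rw [zpow_sub_one, Units.val_mul, ih]; rfl
  obtain ⟨a, b, i, j⟩ := m
  change ph _ _ _ _ (p a b i j) = p a b i j
  rw [ph_p, Units.val_mul, h1, h2]
  simp [p, ← ofAdd_nsmul, ← ofAdd_add]

theorem mon_ext {B : Type} [Monoid B] (f g : M →* B) (h1 : f (p 1 0 0 0) = g (p 1 0 0 0))
    (h2 : f (p 0 1 0 0) = g (p 0 1 0 0)) (h3 : f (p 0 0 1 0) = g (p 0 0 1 0))
    (h4 : f (p 0 0 0 1) = g (p 0 0 0 1)) : f = g := by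
  refine MonoidHom.ext fun m => ?_
  have e1 : Units.map f G0 = Units.map g G0 := Units.ext h1
  have e2 : Units.map f K0 = Units.map g K0 := Units.ext h2
  rw [← ph_id m]
  simp only [ph, MonoidHom.coe_mk, OneHom.coe_mk, map_mul, map_pow, h3, h4, ← Units.coe_map,
    map_zpow, e1, e2]

theorem alg_ext {B : Type} [Semiring B] [Algebra k B] (f g : HH k →ₐ[k] B)
    (h1 : f (e (p 1 0 0 0)) = g (e (p 1 0 0 0))) (h2 : f (e (p 0 1 0 0)) = g (e (p 0 1 0 0)))
    (h3 : f (e (p 0 0 1 0)) = g (e (p 0 0 1 0))) (h4 : f (e (p 0 0 0 1)) = g (e (p 0 0 0 1))) :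
    f = g := by
  have := mon_ext ((f : HH k →* B).comp e) ((g : HH k →* B).comp e) h1 h2 h3 h4
  apply AlgHom.toLinearMap_injective
  exact bas.ext fun m => by rw [bas_eq]; exact DFunLike.congr_fun this m

noncomputable def dg (f g : M →* M) : M →* HH k ⊗[k] HH k :=
  ((Algebra.TensorProduct.includeLeft : HH k →ₐ[k] HH k ⊗[k] HH k) : HH k →* _).comp (e.comp f) *
    ((Algebra.TensorProduct.includeRight : HH k →ₐ[k] HH k ⊗[k] HH k) : HH k →* _).comp (e.comp g)

theorem dg_apply (f g : M →* M) (m : M) : dg f g m = (e (f m) : HH k) ⊗ₜ[k] e (g m) := by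
  simp [dg]

noncomputable def De : HH k →ₐ[k] HH k ⊗[k] HH k :=
  lf (ph (Units.map (dg (.id M) (.id M)) G0) (Units.map (dg (.id M) (.id M)) K0)
    (e (p 0 0 1 0) ⊗ₜ 1 + e (p 1 0 0 0) ⊗ₜ e (p 0 0 1 0))
    (e (p 0 0 0 1) ⊗ₜ 1 + e (p 0 1 0 0) ⊗ₜ e (p 0 0 0 1)))

theorem De_g : De (e (p 1 0 0 0) : HH k) = e (p 1 0 0 0) ⊗ₜ e (p 1 0 0 0) := by
  simp [De, ph_p, G0, dg_apply]

theorem De_k : De (e (p 0 1 0 0) : HH k) = e (p 0 1 0 0) ⊗ₜ e (p 0 1 0 0) := by
  simp [De, ph_p, K0, dg_apply]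

theorem De_x : De (e (p 0 0 1 0) : HH k) =
    e (p 0 0 1 0) ⊗ₜ 1 + e (p 1 0 0 0) ⊗ₜ e (p 0 0 1 0) := by simp [De, ph_p]

theorem De_y : De (e (p 0 0 0 1) : HH k) =
    e (p 0 0 0 1) ⊗ₜ 1 + e (p 0 1 0 0) ⊗ₜ e (p 0 0 0 1) := by simp [De, ph_p]

noncomputable def chi : M →* k := ph 1 1 0 0

noncomputable def Ep : HH k →ₐ[k] k := lf chi

noncomputable def An : HH k →ₐ[k] HH k :=
  lf (ph (Units.map e G0⁻¹) (Units.map e K0⁻¹) (-(e (p (-1) 0 1 0))) (-(e (p 0 (-1) 0 1))))

noncomputable instance : Bialgebra k (HH k) :=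
  Bialgebra.ofAlgHom De Ep
    (alg_ext _ _ (by simp [De, ph_p, G0, dg_apply]) (by simp [De, ph_p, K0, dg_apply])
      (by simp [De_x, De_g, add_tmul, tmul_add, add_assoc, Algebra.TensorProduct.one_def])
      (by simp [De_y, De_k, add_tmul, tmul_add, add_assoc, Algebra.TensorProduct.one_def]))
    (alg_ext _ _ (by simp [De, Ep, chi, ph_p, G0, dg_apply])
      (by simp [De, Ep, chi, ph_p, K0, dg_apply]) (by simp [De, Ep, chi, ph_p])
      (by simp [De, Ep, chi, ph_p]))
    (alg_ext _ _ (by simp [De, Ep, chi, ph_p, G0, dg_apply])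
      (by simp [De, Ep, chi, ph_p, K0, dg_apply]) (by simp [De, Ep, chi, ph_p])
      (by simp [De, Ep, chi, ph_p]))

theorem comul_eq (x : HH k) : Coalgebra.comul (R := k) x = De x := rfl

theorem counit_eq (x : HH k) : Coalgebra.counit (R := k) x = Ep x := rfl

noncomputable instance : HopfAlgebra k (HH k) :=
  HopfAlgebra.ofAlgHom An
    (alg_ext _ _
      (by simp [comul_eq, counit_eq, De, Ep, An, chi, ph_p, G0, dg_apply, ← map_mul, p_mul, p_one])
      (by simp [comul_eq, counit_eq, De, Ep, An, chi, ph_p, K0, dg_apply, ← map_mul, p_mul, p_one])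
      (by simp [comul_eq, counit_eq, De, Ep, An, chi, ph_p, G0, ← map_mul, p_mul])
      (by simp [comul_eq, counit_eq, De, Ep, An, chi, ph_p, K0, ← map_mul, p_mul]))
    (alg_ext _ _
      (by simp [comul_eq, counit_eq, De, Ep, An, chi, ph_p, G0, dg_apply, ← map_mul, p_mul, p_one])
      (by simp [comul_eq, counit_eq, De, Ep, An, chi, ph_p, K0, dg_apply, ← map_mul, p_mul, p_one])
      (by simp [comul_eq, counit_eq, De, Ep, An, chi, ph_p, G0, ← map_mul, p_mul])
      (by simp [comul_eq, counit_eq, De, Ep, An, chi, ph_p, K0, ← map_mul, p_mul]))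

def rho : M →* M := ph G0 K0 1 1

def lam : M →* M := ph G0 K0 (p 1 0 0 0) (p 0 1 0 0)

theorem rho_p (a b : ℤ) (i j : ℕ) : rho (p a b i j) = p a b 0 0 := by
  rw [← ph_id (p a b 0 0)]
  simp [rho, ph_p]

theorem lam_p (a b : ℤ) (i j : ℕ) : lam (p a b i j) = p (a + i) (b + j) 0 0 := by
  have := ph_id (p a b 0 0)
  rw [ph_p, pow_zero, pow_zero, mul_one, mul_one] at this
  rw [lam, ph_p, this]
  simp [p, ← ofAdd_nsmul, ← ofAdd_add]

theorem chi_p (a b : ℤ) (i j : ℕ) : (chi (p a b i j) : k) = 0 ^ i * 0 ^ j := by simp [chi, ph_p]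

noncomputable def Pi : HH k →ₐ[k] HH k := lf (ph (Units.map e G0) (Units.map e K0) 0 0)

theorem Pi_e (m : M) : Pi (e m : HH k) = (chi m : k) • e (rho m) := by
  have := mon_ext (ph (Units.map (e (k := k)) G0) (Units.map e K0) 0 0)
    (((algebraMap k (HH k) : k →* HH k).comp chi) * e.comp rho)
    (by simp [ph_p, G0, chi_p, rho_p]) (by simp [ph_p, K0, chi_p, rho_p])
    (by simp [ph_p, chi_p]) (by simp [ph_p, chi_p])
  rw [Pi, lf_e, this, Algebra.smul_def]
  rfl

theorem left_De (m : M) : rTensor (HH k) Pi.toLinearMap (De (e m)) = e (lam m) ⊗ₜ e m := by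
  have := alg_ext ((Algebra.TensorProduct.map Pi (AlgHom.id k (HH k))).comp De)
    (lf (dg lam (.id M))) (by simp [De_g, Pi_e, chi_p, rho_p, lam_p, dg_apply])
    (by simp [De_k, Pi_e, chi_p, rho_p, lam_p, dg_apply])
    (by simp [De_x, Pi_e, chi_p, rho_p, lam_p, dg_apply])
    (by simp [De_y, Pi_e, chi_p, rho_p, lam_p, dg_apply])
  have := DFunLike.congr_fun this (e m)
  rw [lf_e, dg_apply] at this
  exact this

theorem right_De (m : M) : lTensor (HH k) Pi.toLinearMap (De (e m)) = e m ⊗ₜ e (rho m) := by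
  have := alg_ext ((Algebra.TensorProduct.map (AlgHom.id k (HH k)) Pi).comp De)
    (lf (dg (.id M) rho)) (by simp [De_g, Pi_e, chi_p, rho_p, dg_apply])
    (by simp [De_k, Pi_e, chi_p, rho_p, dg_apply])
    (by simp [De_x, Pi_e, chi_p, rho_p, dg_apply, p_one])
    (by simp [De_y, Pi_e, chi_p, rho_p, dg_apply, p_one])
  have := DFunLike.congr_fun this (e m)
  rw [lf_e, dg_apply] at this
  exact this

def be (q : kˣ) (m n : M) : k := ↑(q ^ (m.toAdd.1 * n.toAdd.2.1))

theorem be_p (q : kˣ) (a b a' b' : ℤ) (i j i' j' : ℕ) :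
    be q (p a b i j) (p a' b' i' j') = ↑(q ^ (a * b')) := rfl

noncomputable def bl (q : kˣ) : HH k ⊗[k] HH k →ₗ[k] k :=
  TensorProduct.lift (bas.constr k fun m => bas.constr k fun n => be q m n)

theorem bl_e (q : kˣ) (m n : M) : bl q (e m ⊗ₜ e n) = be q m n := by
  simp [bl, ← bas_eq]

noncomputable def sg (q : kˣ) : HH k ⊗[k] HH k →ₗ[k] k :=
  bl q ∘ₗ map Pi.toLinearMap Pi.toLinearMap

theorem sg_e (q : kˣ) (m n : M) : sg q (e m ⊗ₜ e n) = chi m * chi n * be q m n := by
  obtain ⟨a, b, i, j⟩ := m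
  obtain ⟨a', b', i', j'⟩ := n
  change sg q (e (p a b i j) ⊗ₜ e (p a' b' i' j')) =
    chi (p a b i j) * chi (p a' b' i' j') * be q (p a b i j) (p a' b' i' j')
  simp only [sg, comp_apply, map_tmul, AlgHom.toLinearMap_apply, Pi_e, smul_tmul_smul, map_smul,
    bl_e, rho_p, be_p, smul_eq_mul]

theorem conv_left {B : Type} [Ring B] [Algebra k B] (q : kˣ) (F : HH k ⊗[k] HH k →ₗ[k] B)
    (m n : M) : conv (Algebra.linearMap k B ∘ₗ sg q) F (e m ⊗ₜ e n) =
      be q (lam m) (lam n) • F (e m ⊗ₜ e n) := by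
  have key : ∀ s t : HH k ⊗[k] HH k, map (Algebra.linearMap k B ∘ₗ sg q) F
      (AlgebraTensorModule.tensorTensorTensorComm k k k k _ _ _ _ (s ⊗ₜ t)) =
      map (Algebra.linearMap k B ∘ₗ bl q) F
        (AlgebraTensorModule.tensorTensorTensorComm k k k k _ _ _ _
          (rTensor (HH k) Pi.toLinearMap s ⊗ₜ rTensor (HH k) Pi.toLinearMap t)) := by
    intro s t
    induction s with
    | zero => simp
    | add s s' h h' => simp only [add_tmul, map_add, h, h']
    | tmul a b =>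
      induction t with
      | zero => simp
      | add t t' h h' => simp only [tmul_add, map_add, h, h']
      | tmul c d => simp [sg]
  simp only [conv, comp_apply, TensorProduct.comul_tmul, comul_eq, key, left_De]
  simp [bl_e, Algebra.smul_def]

theorem conv_right {B : Type} [Ring B] [Algebra k B] (q : kˣ) (F : HH k ⊗[k] HH k →ₗ[k] B)
    (m n : M) : conv F (Algebra.linearMap k B ∘ₗ sg q) (e m ⊗ₜ e n) =
      be q (rho m) (rho n) • F (e m ⊗ₜ e n) := by
  have key : ∀ s t : HH k ⊗[k] HH k, map F (Algebra.linearMap k B ∘ₗ sg q)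
      (AlgebraTensorModule.tensorTensorTensorComm k k k k _ _ _ _ (s ⊗ₜ t)) =
      map F (Algebra.linearMap k B ∘ₗ bl q)
        (AlgebraTensorModule.tensorTensorTensorComm k k k k _ _ _ _
          (lTensor (HH k) Pi.toLinearMap s ⊗ₜ lTensor (HH k) Pi.toLinearMap t)) := by
    intro s t
    induction s with
    | zero => simp
    | add s s' h h' => simp only [add_tmul, map_add, h, h']
    | tmul a b =>
      induction t with
      | zero => simp
      | add t t' h h' => simp only [tmul_add, map_add, h, h']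
      | tmul c d => simp [sg]
  simp only [conv, comp_apply, TensorProduct.comul_tmul, comul_eq, key, right_De]
  simp [bl_e, ← Algebra.commutes, Algebra.smul_def]

theorem ext2 {N : Type} [AddCommGroup N] [Module k N] (f g : HH k ⊗[k] HH k →ₗ[k] N)
    (h : ∀ a b i j a' b' i' j', f (e (p a b i j) ⊗ₜ e (p a' b' i' j')) =
      g (e (p a b i j) ⊗ₜ e (p a' b' i' j'))) : f = g :=
  (bas.tensorProduct bas).ext fun ⟨m, n⟩ => by
    rw [Module.Basis.tensorProduct_apply, bas_eq, bas_eq]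
    exact h ..

theorem inv_conv (q : kˣ) : conv (sg q) (sg q⁻¹) = Coalgebra.counit := by
  refine ext2 _ _ fun a b i j a' b' i' j' => ?_
  have := conv_left q (sg q⁻¹) (p a b i j) (p a' b' i' j')
  rw [show Algebra.linearMap k k ∘ₗ sg q = sg q from rfl] at this
  rw [this, sg_e, TensorProduct.counit_tmul, counit_eq, counit_eq, Ep, lf_e, lf_e, lam_p, lam_p,
    be_p, be_p, chi_p, chi_p]
  rcases i with _ | i <;> rcases j' with _ | j' <;> simp
  field_simp

theorem cocycle (q : kˣ) : IsCocycle (sg q) (sg q⁻¹) := by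
  refine ⟨inv_conv q, by simpa using inv_conv q⁻¹, ?_, fun h => ?_⟩
  · refine ((bas.tensorProduct bas).tensorProduct bas).ext fun ⟨⟨m, n⟩, l⟩ => ?_
    simp only [Module.Basis.tensorProduct_apply, bas_eq, comp_apply, rTensor_tmul, conv_left,
      LinearEquiv.coe_coe, assoc_tmul, lTensor_tmul, mul'_apply, ← map_mul, ← smul_tmul',
      tmul_smul, map_smul, sg_e, smul_eq_mul]
    obtain ⟨a, b, i, j⟩ := m
    obtain ⟨a', b', i', j'⟩ := n
    obtain ⟨a'', b'', i'', j''⟩ := l
    change be q (lam (p a b i j)) (lam (p a' b' i' j')) *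
        (chi (p a b i j * p a' b' i' j' * p a'' b'' i'' j'') *
          be q (p a b i j * p a' b' i' j') (p a'' b'' i'' j'')) =
      be q (lam (p a' b' i' j')) (lam (p a'' b'' i'' j'')) *
        (chi (p a b i j * (p a' b' i' j' * p a'' b'' i'' j'')) *
          be q (p a b i j) (p a' b' i' j' * p a'' b'' i'' j''))
    simp only [lam_p, p_mul, be_p, chi_p]
    rcases i with _ | i <;> rcases j' with _ | j' <;> rcases i' with _ | i' <;>
      rcases j'' with _ | j'' <;> simp [pow_add, add_mul, mul_add, zpow_add₀]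
    ring
  · have h1 : sg q ∘ₗ (TensorProduct.mk k (HH k) (HH k)).flip 1 = Ep.toLinearMap :=
      bas.ext fun m => by
        have := sg_e q m 1
        simpa [bas_eq, Ep, be] using this
    have h2 : sg q ∘ₗ TensorProduct.mk k (HH k) (HH k) 1 = Ep.toLinearMap :=
      bas.ext fun m => by
        have := sg_e q 1 m
        simpa [bas_eq, Ep, be] using this
    exact ⟨LinearMap.congr_fun h1 h, LinearMap.congr_fun h2 h⟩

theorem cancel {A : Type} [AddCommGroup A] [Module k A] (u v : A) (m n : M)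
    (h : u ⊗ₜ[k] (e m : HH k) = v ⊗ₜ e n) : u = if n = m then v else 0 := by
  have := congrArg (fun z => TensorProduct.rid k A (lTensor A (bas.coord m) z)) h
  simpa [← bas_eq, Finsupp.single_apply] using this

theorem trivial_r {A : Type} [Ring A] [HopfAlgebra k A] (r : HH k →ₗ[k] A) (h1 : r 1 = 1)
    (hc : Cocentral r) : r = Algebra.linearMap k A ∘ₗ Ep.toLinearMap := by
  have hc' : ∀ x, rTensor (HH k) r (De x) =
      rTensor (HH k) r (TensorProduct.comm k _ _ (De x)) := fun x => LinearMap.congr_fun hc x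
  have z : ∀ a b i j, ¬ (i = 0 ∧ j = 0) → r (e (p a b i j)) = 0 := by
    intro a b i j hij
    have h := congrArg (lTensor A Pi.toLinearMap) (hc' (e (p a b i j)))
    have e1 : ∀ s, lTensor A Pi.toLinearMap (rTensor (HH k) r s) =
        rTensor (HH k) r (lTensor (HH k) Pi.toLinearMap s) := fun s => by
      induction s <;> simp_all
    have e2 : ∀ s, lTensor (HH k) Pi.toLinearMap (TensorProduct.comm k _ _ s) =
        TensorProduct.comm k _ _ (rTensor (HH k) (Pi (k := k)).toLinearMap s) := fun s => by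
      induction s <;> simp_all
    rw [e1, e1, e2, left_De, right_De, comm_tmul, rTensor_tmul, rTensor_tmul] at h
    rw [cancel _ _ _ _ h, if_neg]
    rw [lam_p, rho_p]
    intro e
    simp only [p, EmbeddingLike.apply_eq_iff_eq, Prod.mk.injEq] at e
    omega
  have dp : ∀ a b, De (e (p a b 0 0) : HH k) = e (p a b 0 0) ⊗ₜ e (p a b 0 0) := by
    intro a b
    have := ph_id (p a b 0 0)
    rw [ph_p, pow_zero, pow_zero, mul_one, mul_one] at this
    rw [De, lf_e, ph_p, pow_zero, pow_zero, mul_one, mul_one, ← map_zpow, ← map_zpow, ← map_mul,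
      Units.coe_map, this, dg_apply]
    rfl
  have sx : ∀ a b, r (e (p (a + 1) b 0 0)) = r (e (p a b 0 0)) := by
    intro a b
    have h := hc' (e (p a b 0 0) * e (p 0 0 1 0))
    rw [map_mul, dp, De_x] at h
    simp only [mul_add, Algebra.TensorProduct.tmul_mul_tmul, ← map_mul, p_mul, map_add,
      comm_tmul, rTensor_tmul, add_zero, zero_add, z a b 1 0 (by simp), zero_tmul] at h
    simpa using cancel _ _ _ _ h
  have sy : ∀ a b, r (e (p a (b + 1) 0 0)) = r (e (p a b 0 0)) := by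
    intro a b
    have h := hc' (e (p a b 0 0) * e (p 0 0 0 1))
    rw [map_mul, dp, De_y] at h
    simp only [mul_add, Algebra.TensorProduct.tmul_mul_tmul, ← map_mul, p_mul, map_add,
      comm_tmul, rTensor_tmul, add_zero, zero_add, z a b 0 1 (by simp), zero_tmul] at h
    simpa using cancel _ _ _ _ h
  have one : ∀ a b, r (e (p a b 0 0)) = 1 := by
    intro a b
    induction a using Int.induction_on with
    | succ n ih => rw [sx, ih]
    | pred n ih => rw [← sx, sub_add_cancel, ih]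
    | zero =>
      induction b using Int.induction_on with
      | succ n ih => rw [sy, ih]
      | pred n ih => rw [← sy, sub_add_cancel, ih]
      | zero => rw [p_one, map_one, h1]
  refine bas.ext fun ⟨a, b, i, j⟩ => ?_
  rw [bas_eq]
  change r (e (p a b i j)) = algebraMap k A (Ep (e (p a b i j)))
  rw [Ep, lf_e, chi_p]
  by_cases h : i = 0 ∧ j = 0
  · rw [h.1, h.2, one]; simp
  · rw [z a b i j h]
    rcases i with _ | i <;> rcases j with _ | j <;> simp_all

theorem result (k : Type) [Field k] (hk : ∃ q : k, q ≠ 0 ∧ q ≠ 1) :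
    ∃ (H : Type) (_ : Ring H) (_ : HopfAlgebra k H), Bad k H := by
  obtain ⟨q, h0, h1⟩ := hk
  have nc : ∃ a b, doi (sg (Units.mk0 q h0)) (sg (Units.mk0 q h0)⁻¹) (a ⊗ₜ b) ≠
      doi (sg (Units.mk0 q h0)) (sg (Units.mk0 q h0)⁻¹) (b ⊗ₜ a) := by
    refine ⟨e (p 1 0 0 0), e (p 0 0 0 1), fun h => h1 ?_⟩
    simp only [doi, conv_right, conv_left, rho_p, lam_p, be_p, mul'_apply, ← map_mul, p_mul] at h
    have := congrArg (bas.coord (p 1 0 0 1)) h
    simpa [← bas_eq] using this
  refine ⟨HH k, inferInstance, inferInstance, _, _, cocycle (Units.mk0 q h0), nc, ?_⟩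
  intro A _ _ act r ha hr hc
  have hm : ∀ a b, rmul act r (a ⊗ₜ b) = a * b := by
    intro a b
    have key : ∀ s : HH k ⊗[k] HH k, mul' k (HH k) (rTensor (HH k) (act ∘ₗ lTensor (HH k) r)
        ((TensorProduct.assoc k (HH k) (HH k) (HH k)).symm (a ⊗ₜ s))) =
        a * TensorProduct.lid k _ (rTensor (HH k) Coalgebra.counit s) := by
      intro s
      induction s with
      | zero => simp
      | add s t h h' => simp only [tmul_add, map_add, h, h', mul_add]
      | tmul c d =>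
        simp [trivial_r r hr hc, Algebra.algebraMap_eq_smul_one, ha, counit_eq]
    simp only [rmul, comp_apply, lTensor_tmul, LinearEquiv.coe_coe, key,
      Coalgebra.rTensor_counit_comul, lid_tmul, one_smul]
  refine ⟨fun a b => by rw [hm, hm, mul_comm], fun h => ?_⟩
  obtain ⟨a, b, hab⟩ := nc
  exact hab (by rw [← h, hm, hm, mul_comm])

end Pool.Agent.Results.MP_16410b_al.NotMatched
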